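import Pool.Agent.Run7.h148.AX.Stm5

/-! Piece `GB3` of the project AX (MP_09540e_an). -/

set_option autoImplicit false

open MeasureTheory Set Filter Topology
open scoped ENNReal ContDiff FourierTransform

namespace Pool.Agent.Run7.h547.AX

open Pool.Agent.Run7.h148.AX

theorem wk0 (ξ : E3) : wk 0 ξ = 1 := by simp [wk]

theorem enorm_le_sum (v : C3) : ‖v‖ₑ ≤ ∑ k, ‖v k‖ₑ := by
  have h : ‖v‖ ≤ ∑ k, ‖v k‖ := by
    rw [pi_norm_le_iff_of_nonneg (Finset.sum_nonneg fun k _ => norm_nonneg _)]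
    intro i
    exact Finset.single_le_sum (f := fun k => ‖v k‖) (fun k _ => norm_nonneg _) (Finset.mem_univ i)
  calc ‖v‖ₑ = ENNReal.ofReal ‖v‖ := (ofReal_norm v).symm
    _ ≤ ENNReal.ofReal (∑ k, ‖v k‖) := ENNReal.ofReal_le_ofReal h
    _ = ∑ k, ENNReal.ofReal ‖v k‖ := ENNReal.ofReal_sum_of_nonneg fun k _ => norm_nonneg _
    _ = ∑ k, ‖v k‖ₑ := Finset.sum_congr rfl fun k _ => ofReal_norm (v k)

theorem lint_exp (c b : ℝ) (hc : 0 ≤ c) (hb : 0 < b) :
    (∫⁻ s in Ioi (0 : ℝ), ENNReal.ofReal (c * Real.exp (-(b * s)))) = ENNReal.ofReal (c / b) := by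
  have h1 : ∀ s : ℝ, c * Real.exp (-(b * s)) = c * Real.exp (-b * s) := by
    intro s
    rw [neg_mul]
  simp only [h1]
  have hi : IntegrableOn (fun s : ℝ => c * Real.exp (-b * s)) (Ioi 0) :=
    (integrableOn_exp_mul_Ioi (by linarith : -b < 0) 0).const_mul c
  rw [← ofReal_integral_eq_lintegral_ofReal hi
    (Filter.Eventually.of_forall fun s => mul_nonneg hc (Real.exp_pos _).le)]
  rw [integral_const_mul, integral_exp_mul_Ioi (by linarith : -b < 0)]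
  congr 1
  simp
  ring

theorem t_GB3 (hOC4 : S_OC4) (hRES : S_RES) (hVVP : S_VVP) : S_GB3 := by
  intro ν A hν hA
  obtain ⟨hVm, hVk, -, hVs, -⟩ := hVVP ν A hν hA
  obtain ⟨M, hM, -⟩ := hVk 0
  simp only [wk0, one_mul] at hM
  have hw : ∀ k, ww ν A (VV ν A) k ∈ OO ν 1 := fun k => (hRES ν A (VV ν A) hν hA hVs k).2
  have hC : ∀ k, ∃ C : ℝ, 0 ≤ C ∧ ∀ (n : ℕ) (t : ℝ), 0 ≤ t →
      (∫⁻ ξ, ‖𝓕 (fun x => ((ww ν A (VV ν A) k n t x : ℝ) : ℂ)) ξ‖ₑ)
        ≤ ENNReal.ofReal (C * NN n * Real.exp (-(ta ν n t / 2))) := by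
    intro k
    obtain ⟨C, hC0, hC⟩ := (hOC4 ν 1 _ hν (hw k)).2 0
    refine ⟨C, hC0, fun n t ht => ?_⟩
    have h := (hC n t ht).2
    simp only [wk0, one_mul] at h
    simpa using h
  choose C hC0 hC using hC
  have hS : 0 ≤ ∑ k, C k := Finset.sum_nonneg fun k _ => hC0 k
  have hD : 0 ≤ (M : ℝ) + ∑ k, C k := add_nonneg M.2 hS
  refine ⟨2 * ((M : ℝ) + ∑ k, C k) / ν, by positivity, fun n => ?_⟩
  have hN : (1 : ℝ) ≤ NN n := by
    have : (0 : ℝ) ≤ n := Nat.cast_nonneg n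
    unfold NN
    linarith
  have hN0 : (0 : ℝ) < NN n := by linarith
  have key : ∀ s ∈ Ioi (0 : ℝ), (∫⁻ ξ, nm (gg ν A n) s ξ) ≤
      ENNReal.ofReal (((M : ℝ) + ∑ k, C k) * NN n * Real.exp (-((ν * NN n ^ 2 / 2) * s))) := by
    intro s hs
    have hs : (0 : ℝ) < s := hs
    have hτ : 0 ≤ ta ν n s := by
      unfold ta
      positivity
    have he : Real.exp (-(2 * ta ν n s)) ≤ Real.exp (-(ta ν n s / 2)) := by
      apply Real.exp_le_exp.2
      linarith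
    have hee : Real.exp (-((ν * NN n ^ 2 / 2) * s)) = Real.exp (-(ta ν n s / 2)) := by
      congr 1
      unfold ta
      ring
    rw [hee]
    have h1 : ∀ ξ, nm (gg ν A n) s ξ ≤ ENNReal.ofReal (Real.exp (-(2 * ta ν n s))) * ‖Vh ν A ξ‖ₑ
        + ∑ k, ‖𝓕 (fun x => ((ww ν A (VV ν A) k n s x : ℝ) : ℂ)) ξ‖ₑ := by
      intro ξ
      show ‖Real.exp (-(2 * ta ν n s)) • Vh ν A ξ + fth (wf ν A (VV ν A) n s) ξ‖ₑ ≤ _
      refine (enorm_add_le _ _).trans (add_le_add ?_ ?_)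
      · rw [enorm_smul, Real.enorm_eq_ofReal (Real.exp_pos _).le]
      · exact enorm_le_sum _
    have h2 : Measurable fun ξ => ENNReal.ofReal (Real.exp (-(2 * ta ν n s))) * ‖Vh ν A ξ‖ₑ :=
      hVm.enorm.const_mul _
    have h3 : ∀ k, Measurable fun ξ : E3 =>
        ‖𝓕 (fun x => ((ww ν A (VV ν A) k n s x : ℝ) : ℂ)) ξ‖ₑ := by
      intro k
      have h4 := (hOC4 ν 1 _ hν (hw k)).1 n
      exact (h4.comp (measurable_const.prodMk measurable_id : Measurable fun ξ : E3 => (s, ξ))).enorm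
    calc (∫⁻ ξ, nm (gg ν A n) s ξ) ≤ ∫⁻ ξ, (ENNReal.ofReal (Real.exp (-(2 * ta ν n s))) *
          ‖Vh ν A ξ‖ₑ + ∑ k, ‖𝓕 (fun x => ((ww ν A (VV ν A) k n s x : ℝ) : ℂ)) ξ‖ₑ) :=
          lintegral_mono h1
      _ = ENNReal.ofReal (Real.exp (-(2 * ta ν n s))) * (∫⁻ ξ, ‖Vh ν A ξ‖ₑ) +
          ∑ k, ∫⁻ ξ, ‖𝓕 (fun x => ((ww ν A (VV ν A) k n s x : ℝ) : ℂ)) ξ‖ₑ := by
          rw [lintegral_add_left h2, lintegral_const_mul _ hVm.enorm,
            lintegral_finsetSum _ fun k _ => h3 k]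
      _ ≤ ENNReal.ofReal (Real.exp (-(ta ν n s / 2))) * ENNReal.ofReal M +
          ∑ k, ENNReal.ofReal (C k * NN n * Real.exp (-(ta ν n s / 2))) := by
          refine add_le_add (mul_le_mul' (ENNReal.ofReal_le_ofReal he) ?_)
            (Finset.sum_le_sum fun k _ => hC k n s hs.le)
          rw [ENNReal.ofReal_coe_nnreal]
          exact hM
      _ = ENNReal.ofReal (Real.exp (-(ta ν n s / 2)) * M +
          ∑ k, C k * NN n * Real.exp (-(ta ν n s / 2))) := by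
          have hp : ∀ k ∈ Finset.univ, 0 ≤ C k * NN n * Real.exp (-(ta ν n s / 2)) := fun k _ =>
            mul_nonneg (mul_nonneg (hC0 k) hN0.le) (Real.exp_pos _).le
          rw [← ENNReal.ofReal_mul (Real.exp_pos _).le, ← ENNReal.ofReal_sum_of_nonneg hp,
            ← ENNReal.ofReal_add (mul_nonneg (Real.exp_pos _).le (NNReal.coe_nonneg M)) (Finset.sum_nonneg hp)]
      _ ≤ ENNReal.ofReal (((M : ℝ) + ∑ k, C k) * NN n * Real.exp (-(ta ν n s / 2))) := by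
          apply ENNReal.ofReal_le_ofReal
          rw [← Finset.sum_mul, ← Finset.sum_mul]
          have hE := (Real.exp_pos (-(ta ν n s / 2))).le
          have hM0 : (0 : ℝ) ≤ M := M.2
          have : Real.exp (-(ta ν n s / 2)) * M ≤ M * NN n * Real.exp (-(ta ν n s / 2)) := by
            have h5 : (M : ℝ) * 1 ≤ M * NN n := mul_le_mul_of_nonneg_left hN hM0
            nlinarith
          nlinarith
  refine (setLIntegral_mono' measurableSet_Ioi key).trans ?_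
  rw [lint_exp _ _ (by positivity) (by positivity)]
  apply le_of_eq
  congr 1
  field_simp

end Pool.Agent.Run7.h547.AX
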