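import Pool.Agent.Run7.h148.AX.Stm5

/-! Piece `WDP` of the project AX (MP_09540e_an). -/

set_option autoImplicit false

open MeasureTheory Set Filter Topology
open scoped ENNReal ContDiff FourierTransform

namespace Pool.Agent.Run7.h547.AX

open Pool.Agent.Run7.h148.AX

theorem t_WDP : S_WDP := by
  intro V hV hdiv q hq
  obtain ⟨hq1, hq2⟩ := hq
  have hc : ∀ j : Fin 3, ContDiff ℝ ∞ fun x => V x j := by
    intro j
    exact (contDiff_euclidean.1 hV) j
  have cq : Continuous q := hq1.continuous
  have cpq : ∀ j, Continuous fun x => pd j q x := by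
    intro j
    have h1 : Continuous (fderiv ℝ q) := hq1.continuous_fderiv (by simp)
    exact h1.clm_apply continuous_const
  have cpV : ∀ j, Continuous fun x => pd j (fun y => V y j) x := by
    intro j
    have h1 : Continuous (fderiv ℝ (fun y => V y j)) := (hc j).continuous_fderiv (by simp)
    exact h1.clm_apply continuous_const
  have spq : ∀ j, HasCompactSupport fun x => pd j q x := fun j => hq2.fderiv_apply ℝ _
  have i1 : ∀ j, Integrable (fun x => V x j * pd j q x) volume := by
    intro j
    exact ((hc j).continuous.mul (cpq j)).integrable_of_hasCompactSupport ((spq j).mul_left)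
  have i2 : ∀ j, Integrable (fun x => pd j (fun y => V y j) x * q x) volume := by
    intro j
    exact ((cpV j).mul cq).integrable_of_hasCompactSupport (hq2.mul_left)
  have i3 : ∀ j : Fin 3, Integrable (fun x => V x j * q x) volume := by
    intro j
    exact ((hc j).continuous.mul cq).integrable_of_hasCompactSupport (hq2.mul_left)
  have ibp : ∀ j, ∫ x, V x j * pd j q x = -∫ x, pd j (fun y => V y j) x * q x := by
    intro j
    exact integral_mul_fderiv_eq_neg_fderiv_mul_of_integrable (i2 j) (i1 j) (i3 j)
      (fun x _ => (hc j).differentiable (by simp) x) (fun x _ => hq1.differentiable (by simp) x)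
  rw [integral_finsetSum _ (fun j _ => i1 j), Finset.sum_congr rfl (fun j _ => ibp j),
    Finset.sum_neg_distrib, ← integral_finsetSum _ (fun j _ => i2 j)]
  have e : ∀ x, ∑ j, pd j (fun y => V y j) x * q x = 0 := by
    intro x
    rw [← Finset.sum_mul, hdiv x, zero_mul]
  simp only [e, integral_zero, neg_zero]

end Pool.Agent.Run7.h547.AX
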